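import Pool.Agent.H70.Skew

namespace Pool.Agent.Results.MP_d4f5ca_al.Counterexample

open Pool.Agent.H70.Skew

theorem result : ∃ (A : Type) (_ : Ring A) (φ : RingAut A), RightSemidistributive A ∧
    IsArtinian Aᵐᵒᵖ A ∧ ∃ (R : Type) (_ : Ring R) (e : R ≃+ HahnSeries ℤ A),
      IsSkewLaurent φ e ∧ ¬ RightSemidistributive R :=
  ⟨A, inferInstance, φ, semiA, isArtinian_of_finite, R, inferInstance, e, skew, notR⟩

end Pool.Agent.Results.MP_d4f5ca_al.Counterexample
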